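import Mathlib

/-!
# Cheaper perfectly balanced 4-way partitions of the five-point stencil mesh

For the `X × X` mesh of the five-point stencil let `V(X)` be the least cost (connectivity minus one)
of a perfectly balanced partition into four parts. It was conjectured that
`V(64) = 222`, `V(256) = 878`, `V(1024) = 3500` and `V(2048) = 6996` (and `V(16) = 57`).
The first four values are too large: `V(64) ≤ 221`, `V(256) ≤ 877`, `V(1024) ≤ 3499` and
`V(2048) ≤ 6995`.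

The partition: two opposite corners are cut off by staircases which are diagonal up to one
incomplete diagonal, and the rest is cut by the main diagonal. If the corner pieces have legs `S`,
then the cost is `2 X + 2 S + 3`.
-/

set_option autoImplicit false

namespace Pool.Agent.Results.MP_d1f6bb_co.CheaperMeshPartitions

/-- The points of the `X × X` mesh. -/
abbrev Mesh (X : ℕ) := Fin X × Fin X

/-- Two mesh points are neighbours (five-point stencil): `|x₁ - x₂| + |y₁ - y₂| = 1`. -/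
def Nbr {X : ℕ} (v w : Mesh X) : Prop :=
  |((v.1 : ℕ) : ℤ) - ((w.1 : ℕ) : ℤ)| + |((v.2 : ℕ) : ℤ) - ((w.2 : ℕ) : ℤ)| = 1

open scoped Classical in
/-- The number `λ(v)` of parts that meet `N[v]`, the set that consists of `v` and its neighbours. -/
noncomputable def lam {X : ℕ} (P : Mesh X → Fin 4) (v : Mesh X) : ℕ :=
  (Finset.univ.filter fun q : Fin 4 => ∃ w : Mesh X, (w = v ∨ Nbr v w) ∧ P w = q).card

/-- The cost of a partition into four parts, `∑ (λ(v) - 1)`. -/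
noncomputable def cost {X : ℕ} (P : Mesh X → Fin 4) : ℕ := ∑ v : Mesh X, (lam P v - 1)

/-- The partition is perfectly balanced: each part has `X ^ 2 / 4` points. -/
def Balanced {X : ℕ} (P : Mesh X → Fin 4) : Prop :=
  ∀ q : Fin 4, 4 * (Finset.univ.filter fun v : Mesh X => P v = q).card = X ^ 2

/-- The minimum cost over all perfectly balanced 4-way partitions of the `X × X` mesh. -/
noncomputable def V (X : ℕ) : ℕ :=
  sInf {c : ℕ | ∃ P : Mesh X → Fin 4, Balanced P ∧ cost P = c}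

/-! ### The partition -/

/-- A corner piece: the full diagonals `x + y < S - 1` and a piece of the diagonal
`x + y = S - 1`. -/
def inA (S u v x y : ℕ) : Prop := x + y + 1 < S ∨ (x + y + 1 = S ∧ u ≤ x ∧ v ≤ y)

instance (S u v x y : ℕ) : Decidable (inA S u v x y) := by unfold inA; infer_instance

/-- The part of a point. -/
def prt (X S u v u' v' x y : ℕ) : Fin 4 :=
  if inA S u v x y then 0
  else if inA S u' v' (X - 1 - x) (X - 1 - y) then 1
  else if y ≤ x then 3 else 2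

/-- The partition as a map on the mesh. -/
def P (X S u v u' v' : ℕ) (w : Mesh X) : Fin 4 := prt X S u v u' v' w.1 w.2

/-! ### The cost is the sum of the sizes of the outer boundaries -/

open scoped Classical in
/-- The outer boundary of a part. -/
noncomputable def bd {X : ℕ} (P : Mesh X → Fin 4) (q : Fin 4) : Finset (Mesh X) :=
  Finset.univ.filter fun v => P v ≠ q ∧ ∃ w, Nbr v w ∧ P w = q

theorem cost_le {X : ℕ} (P : Mesh X → Fin 4) : cost P ≤ ∑ q : Fin 4, (bd P q).card := by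
  classical
  have h1 : ∀ v : Mesh X, lam P v - 1 ≤
      ∑ q : Fin 4, if (P v ≠ q ∧ ∃ w, Nbr v w ∧ P w = q) then 1 else 0 := by
    intro v
    have h2 : (Finset.univ.filter fun q : Fin 4 => ∃ w : Mesh X, (w = v ∨ Nbr v w) ∧ P w = q) ⊆
        insert (P v) (Finset.univ.filter fun q : Fin 4 => (P v ≠ q ∧ ∃ w, Nbr v w ∧ P w = q)) := by
      intro q hq
      rw [Finset.mem_filter] at hq
      obtain ⟨-, w, hw, hq⟩ := hq
      rw [Finset.mem_insert, Finset.mem_filter]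
      by_cases h : P v = q
      · exact Or.inl h.symm
      · right
        refine ⟨Finset.mem_univ _, h, w, ?_, hq⟩
        rcases hw with hw | hw
        · exact absurd (hw ▸ hq) h
        · exact hw
    have h3 := (Finset.card_le_card h2).trans (Finset.card_insert_le _ _)
    rw [← Finset.card_filter]
    unfold lam
    omega
  calc cost P = ∑ v : Mesh X, (lam P v - 1) := rfl
    _ ≤ ∑ v : Mesh X, ∑ q : Fin 4, if (P v ≠ q ∧ ∃ w, Nbr v w ∧ P w = q) then 1 else 0 :=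
        Finset.sum_le_sum fun v _ => h1 v
    _ = ∑ q : Fin 4, ∑ v : Mesh X, if (P v ≠ q ∧ ∃ w, Nbr v w ∧ P w = q) then 1 else 0 :=
        Finset.sum_comm
    _ = ∑ q : Fin 4, (bd P q).card := by
        refine Finset.sum_congr rfl fun q _ => ?_
        rw [bd, Finset.card_filter]

/-- A coordinate form of the neighbour relation. -/
theorem nbr_cases {X : ℕ} {v w : Mesh X} (h : Nbr v w) :
    ((w.1 : ℕ) = v.1 ∧ ((w.2 : ℕ) = v.2 + 1 ∨ (w.2 : ℕ) + 1 = v.2)) ∨
    ((w.2 : ℕ) = v.2 ∧ ((w.1 : ℕ) = v.1 + 1 ∨ (w.1 : ℕ) + 1 = v.1)) := by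
  unfold Nbr at h
  rcases abs_cases (((v.1 : ℕ) : ℤ) - ((w.1 : ℕ) : ℤ)) with h1 | h1 <;>
  rcases abs_cases (((v.2 : ℕ) : ℤ) - ((w.2 : ℕ) : ℤ)) with h2 | h2 <;> omega

/-- Bounding the number of mesh points with a property by an injection into an interval. -/
theorem card_le_of_inj {X : ℕ} (B : Finset (Mesh X)) (f : ℕ → ℕ → ℕ) (a n : ℕ)
    (h1 : ∀ v ∈ B, a ≤ f v.1 v.2 ∧ f v.1 v.2 < a + n)
    (h2 : ∀ v ∈ B, ∀ w ∈ B, f v.1 v.2 = f w.1 w.2 → (v.1 : ℕ) = w.1 ∧ (v.2 : ℕ) = w.2) :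
    B.card ≤ n := by
  have h3 : B.card ≤ (Finset.Ico a (a + n)).card := by
    apply Finset.card_le_card_of_injOn (fun v => f v.1 v.2)
    · intro v hv
      simp only [Finset.coe_Ico, Set.mem_Ico]
      exact h1 v hv
    · intro v hv w hw h
      obtain ⟨h4, h5⟩ := h2 v hv w hw h
      exact Prod.ext (Fin.ext h4) (Fin.ext h5)
  simpa using h3

/-- The same for three kinds of points. -/
theorem card_le_of_inj3 {X : ℕ} (B : Finset (Mesh X)) (Q1 Q2 Q3 : ℕ → ℕ → Prop)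
    (f1 f2 f3 : ℕ → ℕ → ℕ) (a1 a2 a3 n1 n2 n3 : ℕ)
    (h : ∀ p ∈ B, Q1 p.1 p.2 ∨ Q2 p.1 p.2 ∨ Q3 p.1 p.2)
    (h1 : ∀ x y, x < X → y < X → Q1 x y → a1 ≤ f1 x y ∧ f1 x y < a1 + n1)
    (k1 : ∀ x y a b, x < X → y < X → a < X → b < X → Q1 x y → Q1 a b → f1 x y = f1 a b →
      x = a ∧ y = b)
    (h2 : ∀ x y, x < X → y < X → Q2 x y → a2 ≤ f2 x y ∧ f2 x y < a2 + n2)
    (k2 : ∀ x y a b, x < X → y < X → a < X → b < X → Q2 x y → Q2 a b → f2 x y = f2 a b →
      x = a ∧ y = b)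
    (h3 : ∀ x y, x < X → y < X → Q3 x y → a3 ≤ f3 x y ∧ f3 x y < a3 + n3)
    (k3 : ∀ x y a b, x < X → y < X → a < X → b < X → Q3 x y → Q3 a b → f3 x y = f3 a b →
      x = a ∧ y = b) :
    B.card ≤ n1 + (n2 + n3) := by
  classical
  have hsub : B ⊆ (B.filter fun p => Q1 p.1 p.2) ∪
      ((B.filter fun p => Q2 p.1 p.2) ∪ (B.filter fun p => Q3 p.1 p.2)) := by
    intro p hp
    rw [Finset.mem_union, Finset.mem_union, Finset.mem_filter, Finset.mem_filter,
      Finset.mem_filter]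
    rcases h p hp with h | h | h
    · exact Or.inl ⟨hp, h⟩
    · exact Or.inr (Or.inl ⟨hp, h⟩)
    · exact Or.inr (Or.inr ⟨hp, h⟩)
  refine (Finset.card_le_card hsub).trans ((Finset.card_union_le _ _).trans (Nat.add_le_add ?_
    ((Finset.card_union_le _ _).trans (Nat.add_le_add ?_ ?_))))
  · apply card_le_of_inj _ f1 a1
    · intro p hp
      exact h1 _ _ p.1.2 p.2.2 (Finset.mem_filter.1 hp).2
    · intro p hp r hr e
      exact k1 _ _ _ _ p.1.2 p.2.2 r.1.2 r.2.2 (Finset.mem_filter.1 hp).2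
        (Finset.mem_filter.1 hr).2 e
  · apply card_le_of_inj _ f2 a2
    · intro p hp
      exact h2 _ _ p.1.2 p.2.2 (Finset.mem_filter.1 hp).2
    · intro p hp r hr e
      exact k2 _ _ _ _ p.1.2 p.2.2 r.1.2 r.2.2 (Finset.mem_filter.1 hp).2
        (Finset.mem_filter.1 hr).2 e
  · apply card_le_of_inj _ f3 a3
    · intro p hp
      exact h3 _ _ p.1.2 p.2.2 (Finset.mem_filter.1 hp).2
    · intro p hp r hr e
      exact k3 _ _ _ _ p.1.2 p.2.2 r.1.2 r.2.2 (Finset.mem_filter.1 hp).2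
        (Finset.mem_filter.1 hr).2 e

section Main

variable {X S u v u' v' : ℕ}

/-- The value 0. -/
theorem prt_eq_zero {x y : ℕ} : prt X S u v u' v' x y = 0 ↔ inA S u v x y := by
  unfold prt
  split_ifs <;> simp_all

theorem prt_eq_one {x y : ℕ} : prt X S u v u' v' x y = 1 ↔
    ¬ inA S u v x y ∧ inA S u' v' (X - 1 - x) (X - 1 - y) := by
  unfold prt
  split_ifs <;> simp_all

theorem prt_eq_two {x y : ℕ} : prt X S u v u' v' x y = 2 ↔
    ¬ inA S u v x y ∧ ¬ inA S u' v' (X - 1 - x) (X - 1 - y) ∧ x < y := by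
  unfold prt
  split_ifs <;> simp_all

theorem prt_eq_three {x y : ℕ} : prt X S u v u' v' x y = 3 ↔
    ¬ inA S u v x y ∧ ¬ inA S u' v' (X - 1 - x) (X - 1 - y) ∧ y ≤ x := by
  unfold prt
  split_ifs <;> simp_all


theorem mem_bd {X : ℕ} (P : Mesh X → Fin 4) (q : Fin 4) (v : Mesh X) :
    v ∈ bd P q ↔ P v ≠ q ∧ ∃ w, Nbr v w ∧ P w = q := by
  classical
  unfold bd
  simp

/-- The two coordinates of a mesh point are less than `X`. -/
theorem coord (w : Mesh X) : (w.1 : ℕ) < X ∧ (w.2 : ℕ) < X := ⟨w.1.2, w.2.2⟩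

set_option linter.unusedSectionVars false

variable (hX : S + 2 ≤ X) (hu : 2 * u + 2 ≤ S) (hv : 2 * v + 2 ≤ S) (hu' : 2 * u' + 2 ≤ S)
  (hv' : 2 * v' + 2 ≤ S)

include hX hu hv hu' hv'

theorem mem_bd0 (p : Mesh X) (hp : p ∈ bd (P X S u v u' v') 0) :
    (p.1 : ℕ) + p.2 = S ∧ u ≤ p.1 ∧ (p.1 : ℕ) + v ≤ S ∨
      (p.1 : ℕ) + p.2 + 1 = S ∧ ((p.1 : ℕ) < u ∨ (p.2 : ℕ) < v) := by
  rw [mem_bd] at hp
  obtain ⟨h0, w, hw, hq⟩ := hp
  have h1 := nbr_cases hw
  rw [P, Ne, prt_eq_zero] at h0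
  rw [P, prt_eq_zero] at hq
  unfold inA at h0 hq
  omega

theorem mem_bd1 (p : Mesh X) (hp : p ∈ bd (P X S u v u' v') 1) :
    (X - 1 - (p.1 : ℕ)) + (X - 1 - p.2) = S ∧ u' ≤ X - 1 - p.1 ∧ (X - 1 - (p.1 : ℕ)) + v' ≤ S ∨
      (X - 1 - (p.1 : ℕ)) + (X - 1 - p.2) + 1 = S ∧
        (X - 1 - (p.1 : ℕ) < u' ∨ X - 1 - (p.2 : ℕ) < v') := by
  rw [mem_bd] at hp
  obtain ⟨h0, w, hw, hq⟩ := hp
  have h1 := nbr_cases hw
  have h2 := coord p
  have h3 := coord w
  rw [P, Ne, prt_eq_one] at h0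
  rw [P, prt_eq_one] at hq
  unfold inA at h0 hq
  omega

theorem card_bd0 : (bd (P X S u v u' v') 0).card ≤ S + 1 := by
  apply card_le_of_inj _ (fun x y => if x + y + 1 = S ∧ y < v then x + 1 else x) 0
  · intro p hp
    have h := mem_bd0 hX hu hv hu' hv' p hp
    split_ifs <;> omega
  · intro p hp r hr
    have h := mem_bd0 hX hu hv hu' hv' p hp
    have k := mem_bd0 hX hu hv hu' hv' r hr
    split_ifs <;> omega

theorem card_bd1 : (bd (P X S u v u' v') 1).card ≤ S + 1 := by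
  apply card_le_of_inj _ (fun x y => if (X - 1 - x) + (X - 1 - y) + 1 = S ∧ (X - 1 - y) < v' then
    (X - 1 - x) + 1 else X - 1 - x) 0
  · intro p hp
    have h := mem_bd1 hX hu hv hu' hv' p hp
    split_ifs <;> omega
  · intro p hp r hr
    have h := mem_bd1 hX hu hv hu' hv' p hp
    have k := mem_bd1 hX hu hv hu' hv' r hr
    have h2 := coord p
    have h3 := coord r
    split_ifs <;> omega

theorem aux2 (x y a b x' y' a' b' : ℕ) (hx : x + x' + 1 = X) (hy : y + y' + 1 = X)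
    (ha : a + a' + 1 = X) (hb : b + b' + 1 = X)
    (h1 : (a = x ∧ (b = y + 1 ∨ b + 1 = y)) ∨ (b = y ∧ (a = x + 1 ∨ a + 1 = x)))
    (h0 : ¬ (¬ inA S u v x y ∧ ¬ inA S u' v' x' y' ∧ x < y))
    (hq : ¬ inA S u v a b ∧ ¬ inA S u' v' a' b' ∧ a < b) :
    (x ≤ (S - 1) / 2 ∧ ((x < u ∧ x + y + 2 = S) ∨ (u ≤ x ∧ x + y + 1 = S))) ∨
    (y' ≤ (S - 1) / 2 ∧ ((y' < v' ∧ x' + y' + 2 = S) ∨ (v' ≤ y' ∧ x' + y' + 1 = S))) ∨
    (x = y ∧ S ≤ 2 * x ∧ 2 * x + S + 2 ≤ 2 * X) := by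
  unfold inA at h0 hq
  obtain ⟨q1, q2, q3⟩ := hq
  by_cases c1 : x + y + 1 < S ∨ (x + y + 1 = S ∧ u ≤ x ∧ v ≤ y)
  · left
    clear h0 q2
    omega
  · by_cases c2 : x' + y' + 1 < S ∨ (x' + y' + 1 = S ∧ u' ≤ x' ∧ v' ≤ y')
    · right; left
      clear h0 q1 c1
      omega
    · right; right
      have c3 : y ≤ x := by
        by_contra hc
        exact h0 ⟨c1, c2, by omega⟩
      clear h0
      have c4 : x = y := by omega
      clear q1 q2
      omega

theorem aux3 (x y a b x' y' a' b' : ℕ) (hx : x + x' + 1 = X) (hy : y + y' + 1 = X)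
    (ha : a + a' + 1 = X) (hb : b + b' + 1 = X)
    (h1 : (a = x ∧ (b = y + 1 ∨ b + 1 = y)) ∨ (b = y ∧ (a = x + 1 ∨ a + 1 = x)))
    (h0 : ¬ (¬ inA S u v x y ∧ ¬ inA S u' v' x' y' ∧ y ≤ x))
    (hq : ¬ inA S u v a b ∧ ¬ inA S u' v' a' b' ∧ b ≤ a) :
    (y ≤ S / 2 ∧ ((y < v ∧ x + y + 2 = S) ∨ (v ≤ y ∧ x + y + 1 = S))) ∨
    (x' ≤ S / 2 ∧ ((x' < u' ∧ x' + y' + 2 = S) ∨ (u' ≤ x' ∧ x' + y' + 1 = S))) ∨
    (x + 1 = y ∧ S ≤ 2 * x + 1 ∧ 2 * x + 1 + S + 2 ≤ 2 * X) := by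
  unfold inA at h0 hq
  obtain ⟨q1, q2, q3⟩ := hq
  by_cases c1 : x + y + 1 < S ∨ (x + y + 1 = S ∧ u ≤ x ∧ v ≤ y)
  · left
    clear h0 q2
    omega
  · by_cases c2 : x' + y' + 1 < S ∨ (x' + y' + 1 = S ∧ u' ≤ x' ∧ v' ≤ y')
    · right; left
      clear h0 q1 c1
      omega
    · right; right
      have c3 : x < y := by
        by_contra hc
        exact h0 ⟨c1, c2, by omega⟩
      clear h0
      have c4 : x + 1 = y := by omega
      clear q1 q2
      omega

theorem mem_bd2 (p : Mesh X) (hp : p ∈ bd (P X S u v u' v') 2) :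
    ((p.1 : ℕ) ≤ (S - 1) / 2 ∧ (((p.1 : ℕ) < u ∧ (p.1 : ℕ) + p.2 + 2 = S) ∨
      (u ≤ (p.1 : ℕ) ∧ (p.1 : ℕ) + p.2 + 1 = S))) ∨
    (X - 1 - (p.2 : ℕ) ≤ (S - 1) / 2 ∧
      ((X - 1 - (p.2 : ℕ) < v' ∧ (X - 1 - (p.1 : ℕ)) + (X - 1 - p.2) + 2 = S) ∨
      (v' ≤ X - 1 - (p.2 : ℕ) ∧ (X - 1 - (p.1 : ℕ)) + (X - 1 - p.2) + 1 = S))) ∨
    ((p.1 : ℕ) = p.2 ∧ S ≤ 2 * (p.1 : ℕ) ∧ 2 * (p.1 : ℕ) + S + 2 ≤ 2 * X) := by
  rw [mem_bd] at hp
  obtain ⟨h0, w, hw, hq⟩ := hp
  rw [P, Ne, prt_eq_two] at h0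
  rw [P, prt_eq_two] at hq
  have h2 := coord p
  have h3 := coord w
  exact aux2 hX hu hv hu' hv' p.1 p.2 w.1 w.2 (X - 1 - p.1) (X - 1 - p.2) (X - 1 - w.1)
    (X - 1 - w.2) (by omega) (by omega) (by omega) (by omega) (nbr_cases hw) h0 hq

theorem mem_bd3 (p : Mesh X) (hp : p ∈ bd (P X S u v u' v') 3) :
    ((p.2 : ℕ) ≤ S / 2 ∧ (((p.2 : ℕ) < v ∧ (p.1 : ℕ) + p.2 + 2 = S) ∨
      (v ≤ (p.2 : ℕ) ∧ (p.1 : ℕ) + p.2 + 1 = S))) ∨
    (X - 1 - (p.1 : ℕ) ≤ S / 2 ∧
      ((X - 1 - (p.1 : ℕ) < u' ∧ (X - 1 - (p.1 : ℕ)) + (X - 1 - p.2) + 2 = S) ∨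
      (u' ≤ X - 1 - (p.1 : ℕ) ∧ (X - 1 - (p.1 : ℕ)) + (X - 1 - p.2) + 1 = S))) ∨
    ((p.1 : ℕ) + 1 = p.2 ∧ S ≤ 2 * (p.1 : ℕ) + 1 ∧ 2 * (p.1 : ℕ) + 1 + S + 2 ≤ 2 * X) := by
  rw [mem_bd] at hp
  obtain ⟨h0, w, hw, hq⟩ := hp
  rw [P, Ne, prt_eq_three] at h0
  rw [P, prt_eq_three] at hq
  have h2 := coord p
  have h3 := coord w
  exact aux3 hX hu hv hu' hv' p.1 p.2 w.1 w.2 (X - 1 - p.1) (X - 1 - p.2) (X - 1 - w.1)
    (X - 1 - w.2) (by omega) (by omega) (by omega) (by omega) (nbr_cases hw) h0 hq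

theorem card_bd2 : (bd (P X S u v u' v') 2).card ≤
    ((S - 1) / 2 + 1) + (((S - 1) / 2 + 1) + (X - 2 * ((S + 1) / 2))) := by
  refine card_le_of_inj3 _
    (fun x y => x ≤ (S - 1) / 2 ∧ ((x < u ∧ x + y + 2 = S) ∨ (u ≤ x ∧ x + y + 1 = S)))
    (fun x y => X - 1 - y ≤ (S - 1) / 2 ∧ ((X - 1 - y < v' ∧ (X - 1 - x) + (X - 1 - y) + 2 = S) ∨
      (v' ≤ X - 1 - y ∧ (X - 1 - x) + (X - 1 - y) + 1 = S)))
    (fun x y => x = y ∧ S ≤ 2 * x ∧ 2 * x + S + 2 ≤ 2 * X)
    (fun x _ => x) (fun _ y => X - 1 - y) (fun x _ => x) 0 0 ((S + 1) / 2) _ _ _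
    (fun p hp => mem_bd2 hX hu hv hu' hv' p hp) ?_ ?_ ?_ ?_ ?_ ?_
  · intro x y hx hy h
    constructor <;> omega
  · intro x y a b hx hy ha hb h h' e
    constructor <;> omega
  · intro x y hx hy h
    constructor <;> omega
  · intro x y a b hx hy ha hb h h' e
    obtain ⟨-, h⟩ := h
    obtain ⟨-, h'⟩ := h'
    constructor <;> omega
  · intro x y hx hy h
    constructor <;> omega
  · intro x y a b hx hy ha hb h h' e
    constructor <;> omega

theorem card_bd3 : (bd (P X S u v u' v') 3).card ≤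
    (S / 2 + 1) + ((S / 2 + 1) + (X - 1 - 2 * (S / 2))) := by
  refine card_le_of_inj3 _
    (fun x y => y ≤ S / 2 ∧ ((y < v ∧ x + y + 2 = S) ∨ (v ≤ y ∧ x + y + 1 = S)))
    (fun x y => X - 1 - x ≤ S / 2 ∧ ((X - 1 - x < u' ∧ (X - 1 - x) + (X - 1 - y) + 2 = S) ∨
      (u' ≤ X - 1 - x ∧ (X - 1 - x) + (X - 1 - y) + 1 = S)))
    (fun x y => x + 1 = y ∧ S ≤ 2 * x + 1 ∧ 2 * x + 1 + S + 2 ≤ 2 * X)
    (fun _ y => y) (fun x _ => X - 1 - x) (fun x _ => x) 0 0 (S / 2) _ _ _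
    (fun p hp => mem_bd3 hX hu hv hu' hv' p hp) ?_ ?_ ?_ ?_ ?_ ?_
  · intro x y hx hy h
    constructor <;> omega
  · intro x y a b hx hy ha hb h h' e
    constructor <;> omega
  · intro x y hx hy h
    constructor <;> omega
  · intro x y a b hx hy ha hb h h' e
    obtain ⟨-, h⟩ := h
    obtain ⟨-, h'⟩ := h'
    constructor <;> omega
  · intro x y hx hy h
    constructor <;> omega
  · intro x y a b hx hy ha hb h h' e
    constructor <;> omega

/-- The cost of the partition. -/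
theorem cost_P_le : cost (P X S u v u' v') ≤ 2 * X + 2 * S + 3 := by
  have h := cost_le (P X S u v u' v')
  rw [Fin.sum_univ_four] at h
  have h0 := card_bd0 hX hu hv hu' hv'
  have h1 := card_bd1 hX hu hv hu' hv'
  have h2 := card_bd2 hX hu hv hu' hv'
  have h3 := card_bd3 hX hu hv hu' hv'
  omega

end Main

/-! ### The sizes of the parts -/

/-- The number of points of a corner piece in the column `x`. -/
def ht (S u v x : ℕ) : ℕ := (S - 1 - x) + (if u ≤ x ∧ x + v + 1 ≤ S then 1 else 0)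

theorem inA_iff (S u v x y : ℕ) : inA S u v x y ↔ y < ht S u v x := by
  unfold inA ht
  split_ifs <;> omega

/-- The number of points of the part `q` in the column `x`. -/
def col (X S u v u' v' : ℕ) (q : Fin 4) (x : ℕ) : ℕ :=
  match q with
  | 0 => ht S u v x
  | 1 => ht S u' v' (X - 1 - x)
  | 2 => (X - ht S u' v' (X - 1 - x)) - max (x + 1) (ht S u v x)
  | 3 => min (x + 1) (X - ht S u' v' (X - 1 - x)) - ht S u v x

theorem ht_le (S u v x : ℕ) : ht S u v x ≤ S - x := by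
  unfold ht
  split_ifs <;> omega

theorem card_col (X S u v u' v' : ℕ) (hX : S + 2 ≤ X) (q : Fin 4) (x : ℕ) (hx : x < X) :
    ((Finset.range X).filter fun y => prt X S u v u' v' x y = q).card = col X S u v u' v' q x := by
  have ha := ht_le S u v x
  have hb := ht_le S u' v' (X - 1 - x)
  have key : ∀ l r : ℕ, (∀ y, y < X → (prt X S u v u' v' x y = q ↔ l ≤ y ∧ y < r)) → r ≤ X →
      ((Finset.range X).filter fun y => prt X S u v u' v' x y = q).card = r - l := by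
    intro l r h hr
    have : ((Finset.range X).filter fun y => prt X S u v u' v' x y = q) = Finset.Ico l r := by
      ext y
      rw [Finset.mem_filter, Finset.mem_range, Finset.mem_Ico]
      constructor
      · rintro ⟨h1, h2⟩
        exact (h y h1).1 h2
      · intro h1
        exact ⟨by omega, (h y (by omega)).2 h1⟩
    rw [this, Nat.card_Ico]
  fin_cases q
  · refine (key 0 (ht S u v x) ?_ (by omega)).trans (by simp [col])
    intro y hy
    refine prt_eq_zero.trans ?_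
    rw [inA_iff]
    omega
  · refine (key (X - ht S u' v' (X - 1 - x)) X ?_ le_rfl).trans ?_
    · intro y hy
      refine prt_eq_one.trans ?_
      rw [inA_iff, inA_iff]
      omega
    · show _ = ht S u' v' (X - 1 - x)
      omega
  · refine (key (max (x + 1) (ht S u v x)) (X - ht S u' v' (X - 1 - x)) ?_ (by omega)).trans rfl
    intro y hy
    refine prt_eq_two.trans ?_
    rw [inA_iff, inA_iff]
    omega
  · refine (key (ht S u v x) (min (x + 1) (X - ht S u' v' (X - 1 - x))) ?_ (by omega)).trans rfl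
    intro y hy
    refine prt_eq_three.trans ?_
    rw [inA_iff, inA_iff]
    omega

theorem card_part (X S u v u' v' : ℕ) (hX : S + 2 ≤ X) (q : Fin 4) :
    (Finset.univ.filter fun w : Mesh X => P X S u v u' v' w = q).card =
      ∑ x ∈ Finset.range X, col X S u v u' v' q x := by
  rw [Finset.card_filter, Fintype.sum_prod_type, ← Fin.sum_univ_eq_sum_range]
  refine Finset.sum_congr rfl fun x _ => ?_
  rw [← card_col X S u v u' v' hX q x x.2, Finset.card_filter, ← Fin.sum_univ_eq_sum_range]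
  rfl

/-- The sum of `g 0, ..., g (n - 1)`, for evaluation. -/
def sumTo (g : ℕ → ℕ) : ℕ → ℕ
  | 0 => 0
  | n + 1 => sumTo g n + g n

theorem sumTo_eq (g : ℕ → ℕ) (n : ℕ) : sumTo g n = ∑ x ∈ Finset.range n, g x := by
  induction n with
  | zero => rfl
  | succ n ih => rw [Finset.sum_range_succ, ← ih]; rfl

/-- The check of the sizes. -/
def chk (X S u v u' v' : ℕ) : Bool :=
  (4 * sumTo (col X S u v u' v' 0) X == X ^ 2) && (4 * sumTo (col X S u v u' v' 1) X == X ^ 2) &&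
  (4 * sumTo (col X S u v u' v' 2) X == X ^ 2) && (4 * sumTo (col X S u v u' v' 3) X == X ^ 2)

theorem balanced_of_chk (X S u v u' v' : ℕ) (hX : S + 2 ≤ X) (h : chk X S u v u' v' = true) :
    Balanced (P X S u v u' v') := by
  unfold chk at h
  rw [Bool.and_eq_true, Bool.and_eq_true, Bool.and_eq_true, beq_iff_eq, beq_iff_eq, beq_iff_eq,
    beq_iff_eq] at h
  obtain ⟨⟨⟨h0, h1⟩, h2⟩, h3⟩ := h
  intro q
  rw [card_part X S u v u' v' hX, ← sumTo_eq]
  fin_cases q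
  · exact h0
  · exact h1
  · exact h2
  · exact h3

theorem V_le (X S u v u' v' : ℕ) (hX : S + 2 ≤ X) (hu : 2 * u + 2 ≤ S) (hv : 2 * v + 2 ≤ S)
    (hu' : 2 * u' + 2 ≤ S) (hv' : 2 * v' + 2 ≤ S) (h : chk X S u v u' v' = true) :
    V X ≤ 2 * X + 2 * S + 3 := by
  refine (Nat.sInf_le ?_).trans (cost_P_le hX hu hv hu' hv')
  exact ⟨P X S u v u' v', balanced_of_chk X S u v u' v' hX h, rfl⟩

/-- The conjectured values of `V` are too large for `X = 64, 256, 1024, 2048`. (The second half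
says that the values are minima, not values of an empty infimum: there are balanced partitions
with these costs.) -/
theorem result :
    (V 64 ≤ 221 ∧ V 256 ≤ 877 ∧ V 1024 ≤ 3499 ∧ V 2048 ≤ 6995) ∧
    (∃ P : Mesh 64 → Fin 4, Balanced P ∧ cost P ≤ 221) ∧
    (∃ P : Mesh 256 → Fin 4, Balanced P ∧ cost P ≤ 877) ∧
    (∃ P : Mesh 1024 → Fin 4, Balanced P ∧ cost P ≤ 3499) ∧
    (∃ P : Mesh 2048 → Fin 4, Balanced P ∧ cost P ≤ 6995) := by
  have c1 : chk 64 45 11 0 2 9 = true := by decide +kernel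
  have c2 : chk 256 181 87 0 50 37 = true := by decide +kernel
  have c3 : chk 1024 724 306 0 156 150 = true := by decide +kernel
  have c4 : chk 2048 1448 500 0 200 300 = true := by decide +kernel
  refine ⟨⟨?_, ?_, ?_, ?_⟩, ?_, ?_, ?_, ?_⟩
  · exact V_le 64 45 11 0 2 9 (by omega) (by omega) (by omega) (by omega) (by omega) c1
  · exact V_le 256 181 87 0 50 37 (by omega) (by omega) (by omega) (by omega) (by omega) c2
  · exact V_le 1024 724 306 0 156 150 (by omega) (by omega) (by omega) (by omega) (by omega) c3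
  · exact V_le 2048 1448 500 0 200 300 (by omega) (by omega) (by omega) (by omega) (by omega) c4
  · exact ⟨_, balanced_of_chk _ _ _ _ _ _ (by omega) c1,
      cost_P_le (by omega) (by omega) (by omega) (by omega) (by omega)⟩
  · exact ⟨_, balanced_of_chk _ _ _ _ _ _ (by omega) c2,
      cost_P_le (by omega) (by omega) (by omega) (by omega) (by omega)⟩
  · exact ⟨_, balanced_of_chk _ _ _ _ _ _ (by omega) c3,
      cost_P_le (by omega) (by omega) (by omega) (by omega) (by omega)⟩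
  · exact ⟨_, balanced_of_chk _ _ _ _ _ _ (by omega) c4,
      cost_P_le (by omega) (by omega) (by omega) (by omega) (by omega)⟩

end Pool.Agent.Results.MP_d1f6bb_co.CheaperMeshPartitions
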